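import Pool.Agent.Helper29.MW.Base
import Pool.Agent.Helper29.TW.ShortB
import Pool.Agent.Helper29.TW.TreeOf
import Pool.Agent.Helper29.TW.LinkSm
import Pool.Agent.Helper29.TW.LowB
import Pool.Agent.Helper29.TD.Tow
import Pool.Agent.Helper20.OP.UltP

/-!
# Monadic second-order sentences whose models have only short paths

`bounded_path_of_tree`: the theorem on the longest path follows from the theorem on the tree-width (for the same sentence, and
for the sentence `φ⁺`).  A path of the Gaifman graph is a new binary relation `Q` (vocabulary `Option S`, arities `qAr ar`): a linear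
order of its field in which neighbours are adjacent (`POrd`).
-/

set_option autoImplicit false

namespace Pool.Agent.Helper29.MW

open Filter Pool.Agent.Helper20.Spectra Pool.Agent.Helper20.OP Pool.Agent.Helper29.TD Pool.Agent.Helper29.TW

variable {S : Type} {ar : S → ℕ}

/-! ### the vocabulary -/

/-- the arities after adding a binary relation -/
def qAr (ar : S → ℕ) : Option S → ℕ
  | none => 2
  | some s => ar s

/-- the expansion of an interpretation by a binary relation -/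
def qI {M : Type} (I : Interp S ar M) (Q : M → M → Prop) : Interp (Option S) (qAr ar) M
  | none => fun v : Fin 2 → M => Q (v 0) (v 1)
  | some s => fun v => I s v

/-- the reduct -/
def rI {M : Type} (J : Interp (Option S) (qAr ar) M) : Interp S ar M := fun s v => J (some s) v

/-- the binary relation -/
def rQ {M : Type} (J : Interp (Option S) (qAr ar) M) (x y : M) : Prop :=
  J none (show Fin 2 → M from ![x, y])

/-- a formula in the larger vocabulary -/
def liftQ : {k m : ℕ} → MFm S ar k m → MFm (Option S) (qAr ar) k m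
  | _, _, .eq i j => .eq i j
  | _, _, .rel s f => .rel (some s) f
  | _, _, .mem i j => .mem i j
  | _, _, .not φ => .not (liftQ φ)
  | _, _, .and φ ψ => .and (liftQ φ) (liftQ ψ)
  | _, _, .ex φ => .ex (liftQ φ)
  | _, _, .exSet φ => .exSet (liftQ φ)

theorem holds_liftQ {M : Type} (J : Interp (Option S) (qAr ar) M) {k m : ℕ} (φ : MFm S ar k m) :
    ∀ (v : Fin k → M) (V : Fin m → Set M), (liftQ φ).Holds J v V ↔ φ.Holds (rI J) v V := by
  induction φ with
  | eq i j => intro v V; exact Iff.rfl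
  | rel s f => intro v V; exact Iff.rfl
  | mem i j => intro v V; exact Iff.rfl
  | not φ ih => intro v V; exact not_congr (ih v V)
  | and φ ψ ih₁ ih₂ => intro v V; exact and_congr (ih₁ v V) (ih₂ v V)
  | ex φ ih => intro v V; exact exists_congr fun x => ih (Fin.cons x v) V
  | exSet φ ih => intro v V; exact exists_congr fun X => ih v (Fin.cons X V)

/-! ### a block of quantifiers -/

private def exN58 : (l : ℕ) → {k : ℕ} → MFm S ar (k + l) 0 → MFm S ar k 0
  | 0, _, φ => φ
  | l + 1, _, φ => exN58 l (MFm.ex φ)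

private def comb58 {M : Type} {k : ℕ} : (l : ℕ) → (Fin l → M) → (Fin k → M) → Fin (k + l) → M
  | 0, _, v => v
  | l + 1, u, v => Fin.cons (u 0) (comb58 l (Fin.tail u) v)

private theorem holds_exN58 {M : Type} (I : Interp S ar M) (l : ℕ) {k : ℕ} (v : Fin k → M)
    (V : Fin 0 → Set M) : ∀ φ : MFm S ar (k + l) 0,
    (exN58 l φ).Holds I v V ↔ ∃ u : Fin l → M, φ.Holds I (comb58 l u v) V := by
  induction l with
  | zero =>
    intro φ
    exact ⟨fun h => ⟨Fin.elim0, h⟩, fun ⟨_, h⟩ => h⟩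
  | succ l ih =>
    intro φ
    refine (ih (MFm.ex φ)).trans ?_
    constructor
    · rintro ⟨u, x, h⟩
      refine ⟨Fin.cons x u, ?_⟩
      exact h
    · rintro ⟨u, h⟩
      exact ⟨Fin.tail u, u 0, h⟩

private theorem comb_lt58 {M : Type} {k : ℕ} (v : Fin k → M) : ∀ (l : ℕ) (u : Fin l → M) (i : ℕ)
    (hi : i < l) (h : i < k + l), comb58 l u v ⟨i, h⟩ = u ⟨i, hi⟩ := by
  intro l
  induction l with
  | zero => intro u i hi; omega
  | succ l ih =>
    intro u i hi h
    cases i with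
    | zero => rfl
    | succ i => exact ih (Fin.tail u) i (by omega) (by omega)

private theorem comb_ge58 {M : Type} {k : ℕ} (v : Fin k → M) (j : Fin k) : ∀ (l : ℕ) (u : Fin l → M)
    (h : l + j.1 < k + l), comb58 l u v ⟨l + j.1, h⟩ = v j := by
  intro l
  induction l with
  | zero =>
    intro u h
    show v _ = v j
    congr 1
    exact Fin.ext (Nat.zero_add _)
  | succ l ih =>
    intro u h
    have e : (⟨l + 1 + j.1, h⟩ : Fin (k + (l + 1))) = Fin.succ ⟨l + j.1, (by omega : l + j.1 < k + l)⟩ :=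
      Fin.ext (by simp only [Fin.succ_mk]; omega)
    rw [e]
    exact ih (Fin.tail u) _

/-! ### definable properties -/

private def MD58 (k : ℕ) (P : (M : Type) → Interp S ar M → (Fin k → M) → Prop) : Prop :=
  ∃ φ : MFm S ar k 0, ∀ (M : Type) (I : Interp S ar M) (v : Fin k → M),
    φ.Holds I v Fin.elim0 ↔ P M I v

private theorem congr58 {k : ℕ} {P Q : (M : Type) → Interp S ar M → (Fin k → M) → Prop}
    (h : MD58 k P) (hPQ : ∀ M I v, Q M I v ↔ P M I v) : MD58 k Q := by
  obtain ⟨φ, hφ⟩ := h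
  exact ⟨φ, fun M I v => (hφ M I v).trans (hPQ M I v).symm⟩

private theorem eq58 {k : ℕ} (i j : Fin k) :
    MD58 k (fun (M : Type) (_ : Interp S ar M) (v : Fin k → M) => v i = v j) :=
  ⟨.eq i j, fun _ _ _ => Iff.rfl⟩

private theorem rel58 {k : ℕ} (s : S) (f : Fin (ar s) → Fin k) :
    MD58 k (fun (M : Type) (I : Interp S ar M) (v : Fin k → M) => I s (fun i => v (f i))) :=
  ⟨.rel s f, fun _ _ _ => Iff.rfl⟩

private theorem not58 {k : ℕ} {P : (M : Type) → Interp S ar M → (Fin k → M) → Prop}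
    (h : MD58 k P) : MD58 k (fun M I v => ¬ P M I v) := by
  obtain ⟨φ, hφ⟩ := h
  exact ⟨.not φ, fun M I v => not_congr (hφ M I v)⟩

private theorem and58 {k : ℕ} {P Q : (M : Type) → Interp S ar M → (Fin k → M) → Prop}
    (h : MD58 k P) (h' : MD58 k Q) : MD58 k (fun M I v => P M I v ∧ Q M I v) := by
  obtain ⟨φ, hφ⟩ := h
  obtain ⟨ψ, hψ⟩ := h'
  exact ⟨.and φ ψ, fun M I v => and_congr (hφ M I v) (hψ M I v)⟩

private theorem or58 {k : ℕ} {P Q : (M : Type) → Interp S ar M → (Fin k → M) → Prop}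
    (h : MD58 k P) (h' : MD58 k Q) : MD58 k (fun M I v => P M I v ∨ Q M I v) :=
  congr58 (not58 (and58 (not58 h) (not58 h'))) (fun M I v => by tauto)

private theorem imp58 {k : ℕ} {P Q : (M : Type) → Interp S ar M → (Fin k → M) → Prop}
    (h : MD58 k P) (h' : MD58 k Q) : MD58 k (fun M I v => P M I v → Q M I v) :=
  congr58 (or58 (not58 h) h') (fun M I v => by tauto)

private theorem ex58 {k : ℕ} {P : (M : Type) → Interp S ar M → (Fin (k + 1) → M) → Prop}
    (h : MD58 (k + 1) P) : MD58 k (fun M I v => ∃ x : M, P M I (Fin.cons x v)) := by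
  obtain ⟨φ, hφ⟩ := h
  exact ⟨.ex φ, fun M I v => exists_congr fun x => hφ M I (Fin.cons x v)⟩

private theorem all58 {k : ℕ} {P : (M : Type) → Interp S ar M → (Fin (k + 1) → M) → Prop}
    (h : MD58 (k + 1) P) : MD58 k (fun M I v => ∀ x : M, P M I (Fin.cons x v)) :=
  congr58 (not58 (ex58 (not58 h))) (fun M I v => by push Not; rfl)

private theorem false58 (k : ℕ) :
    MD58 k (fun (M : Type) (_ : Interp S ar M) (_ : Fin k → M) => False) :=
  congr58 (ex58 (not58 (eq58 (S := S) (ar := ar) (0 : Fin (k + 1)) 0))) (fun M I v => by simp)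

private theorem exfin58 {k : ℕ} {γ : Type} [Finite γ]
    {P : γ → (M : Type) → Interp S ar M → (Fin k → M) → Prop} (h : ∀ c, MD58 k (P c)) :
    MD58 k (fun M I v => ∃ c, P c M I v) := by
  classical
  have := Fintype.ofFinite γ
  have key : ∀ s : Finset γ, MD58 k (fun M I v => ∃ c ∈ s, P c M I v) := by
    intro s
    induction s using Finset.induction_on with
    | empty => exact congr58 (false58 k) (fun M I v => by simp)
    | insert c s hc ih =>
      refine congr58 (or58 (h c) ih) (fun M I v => ?_)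
      simp only [Finset.exists_mem_insert]
  exact congr58 (key Finset.univ) (fun M I v => by simp)

private theorem adj_iff58 {M : Type} (J : Interp (Option S) (qAr ar) M) (x y : M) :
    Adj (rI J) x y ↔ x ≠ y ∧ ∃ c : (Σ s : S, Fin (ar s) × Fin (ar s)),
      ∃ u : Fin (ar c.1) → M, J (some c.1) u ∧ u c.2.1 = x ∧ u c.2.2 = y := by
  constructor
  · rintro ⟨h, s, v, hv, ⟨i, hi⟩, j, hj⟩
    exact ⟨h, ⟨s, i, j⟩, v, hv, hi, hj⟩
  · rintro ⟨h, ⟨s, i, j⟩, v, hv, hi, hj⟩
    exact ⟨h, s, v, hv, ⟨i, hi⟩, j, hj⟩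

private theorem adj58 [Finite S] {k : ℕ} (a b : Fin k) :
    MD58 k (fun (M : Type) (J : Interp (Option S) (qAr ar) M) (v : Fin k → M) =>
      Adj (rI J) (v a) (v b)) := by
  have h1 : ∀ c : (Σ s : S, Fin (ar s) × Fin (ar s)),
      MD58 k (fun (M : Type) (J : Interp (Option S) (qAr ar) M) (v : Fin k → M) =>
        ∃ u : Fin (ar c.1) → M, J (some c.1) u ∧ u c.2.1 = v a ∧ u c.2.2 = v b) := by
    rintro ⟨s, i, j⟩
    have hi : ∀ t : Fin (ar s), t.1 < k + ar s := fun t => by omega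
    have ha : ∀ t : Fin k, ar s + t.1 < k + ar s := fun t => by omega
    refine ⟨exN58 (ar s) (.and (.rel (some s) (fun t : Fin (ar s) => ⟨t.1, hi t⟩))
      (.and (.eq ⟨i.1, hi i⟩ ⟨ar s + a.1, ha a⟩) (.eq ⟨j.1, hi j⟩ ⟨ar s + b.1, ha b⟩))), ?_⟩
    intro M J v
    rw [holds_exN58]
    refine exists_congr fun u => ?_
    have e1 : (fun t : Fin (ar s) => comb58 (ar s) u v ⟨t.1, hi t⟩) = u := by
      funext t
      rw [comb_lt58 v (ar s) u t.1 t.2 (hi t)]
    show (J (some s) (fun t : Fin (ar s) => comb58 (ar s) u v ⟨t.1, hi t⟩) ∧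
      comb58 (ar s) u v ⟨i.1, hi i⟩ = comb58 (ar s) u v ⟨ar s + a.1, ha a⟩ ∧
      comb58 (ar s) u v ⟨j.1, hi j⟩ = comb58 (ar s) u v ⟨ar s + b.1, ha b⟩) ↔ _
    rw [e1, comb_lt58 v (ar s) u i.1 i.2 (hi i), comb_lt58 v (ar s) u j.1 j.2 (hi j),
      comb_ge58 v a (ar s) u (ha a), comb_ge58 v b (ar s) u (ha b)]
  refine congr58 (and58 (not58 (eq58 a b)) (exfin58 h1)) (fun M J v => ?_)
  exact adj_iff58 J (v a) (v b)

private theorem q58 {k : ℕ} (a b : Fin k) :
    MD58 k (fun (M : Type) (J : Interp (Option S) (qAr ar) M) (v : Fin k → M) =>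
      rQ J (v a) (v b)) := by
  refine congr58 (rel58 (S := Option S) (ar := qAr ar) none (show Fin 2 → Fin k from ![a, b]))
    (fun M J v => ?_)
  refine Iff.of_eq (congrArg (J none) ?_)
  funext i
  change Fin 2 at i
  fin_cases i <;> rfl

/-! ### paths as orders -/

/-- the binary relation is a linear order of its field, and neighbours are adjacent in the Gaifman graph of
the reduct -/
def POrd {M : Type} (J : Interp (Option S) (qAr ar) M) : Prop :=
  (∀ x y, rQ J x y → rQ J x x ∧ rQ J y y) ∧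
  (∀ x y, rQ J x y → rQ J y x → x = y) ∧
  (∀ x y z, rQ J x y → rQ J y z → rQ J x z) ∧
  (∀ x y, rQ J x x → rQ J y y → rQ J x y ∨ rQ J y x) ∧
  ∀ x y, rQ J x y → x ≠ y → (∀ z, rQ J x z → rQ J z y → z = x ∨ z = y) → Adj (rI J) x y

private theorem pord58 [Finite S] :
    MD58 0 (fun (M : Type) (J : Interp (Option S) (qAr ar) M) (_ : Fin 0 → M) => POrd J) := by
  refine and58 ?_ (and58 ?_ (and58 ?_ (and58 ?_ ?_)))
  · exact congr58 (all58 (all58 (imp58 (q58 (k := 2) 1 0) (and58 (q58 1 1) (q58 0 0)))))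
      (fun M J v => Iff.rfl)
  · exact congr58 (all58 (all58 (imp58 (q58 (k := 2) 1 0) (imp58 (q58 0 1) (eq58 1 0)))))
      (fun M J v => Iff.rfl)
  · exact congr58 (all58 (all58 (all58 (imp58 (q58 (k := 3) 2 1) (imp58 (q58 1 0) (q58 2 0))))))
      (fun M J v => Iff.rfl)
  · exact congr58 (all58 (all58 (imp58 (q58 (k := 2) 1 1) (imp58 (q58 0 0)
      (or58 (q58 1 0) (q58 0 1)))))) (fun M J v => Iff.rfl)
  · exact congr58 (all58 (all58 (imp58 (q58 (k := 2) 1 0) (imp58 (not58 (eq58 1 0))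
      (imp58 (all58 (imp58 (q58 (k := 3) 2 0) (imp58 (q58 0 1) (or58 (eq58 0 2) (eq58 0 1)))))
        (adj58 1 0)))))) (fun M J v => Iff.rfl)

/-- the property `POrd` is definable -/
theorem pord_def [Finite S] : ∃ ψ : MFm (Option S) (qAr ar) 0 0,
    ∀ (M : Type) (J : Interp (Option S) (qAr ar) M), MSat J ψ ↔ POrd J := by
  obtain ⟨ψ, hψ⟩ := pord58 (S := S) (ar := ar)
  exact ⟨ψ, fun M J => hψ M J Fin.elim0⟩

/-- the sentence `φ⁺` -/
private theorem plus58 [Finite S] (φ : MFm S ar 0 0) : ∃ φ' : MFm (Option S) (qAr ar) 0 0,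
    ∀ (M : Type) (J : Interp (Option S) (qAr ar) M), MSat J φ' ↔ MSat (rI J) φ ∧ POrd J := by
  obtain ⟨ψ, hψ⟩ := pord58 (S := S) (ar := ar)
  refine ⟨.and (liftQ φ) ψ, fun M J => ?_⟩
  exact and_congr (holds_liftQ J φ Fin.elim0 Fin.elim0) (hψ M J Fin.elim0)

/-- the field of the order is a path -/
theorem field58 {M : Type} [Finite M] {J : Interp (Option S) (qAr ar) M} (h : POrd J)
    {w : ℕ} (hp : PathLe (rI J) w) : {x | rQ J x x}.ncard ≤ w := by
  classical
  obtain ⟨h1, h2, h3, h4, h5⟩ := h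
  have := Fintype.ofFinite {x // rQ J x x}
  let _ : LinearOrder {x // rQ J x x} :=
    { le := fun x y => rQ J x.1 y.1
      le_refl := fun x => x.2
      le_trans := fun x y z hxy hyz => h3 _ _ _ hxy hyz
      le_antisymm := fun x y hxy hyx => Subtype.ext (h2 _ _ hxy hyx)
      le_total := fun x y => h4 _ _ x.2 y.2
      toDecidableLE := Classical.decRel _ }
  obtain ⟨e⟩ : Nonempty (Fin (Fintype.card {x // rQ J x x}) ≃o {x // rQ J x x}) :=
    ⟨monoEquivOfFin _ rfl⟩
  have hle : ∀ x y : {x // rQ J x x}, x ≤ y ↔ rQ J x.1 y.1 := fun _ _ => Iff.rfl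
  have hpath : IsPath (rI J) (fun i => (e i).1) := by
    refine ⟨Subtype.val_injective.comp e.injective, fun i j hij => ?_⟩
    have hij' : i ≤ j := by rw [Fin.le_def]; omega
    have hne : i ≠ j := by
      rintro rfl
      omega
    refine h5 _ _ ((hle _ _).1 (e.monotone hij')) (fun h => hne (e.injective (Subtype.ext h))) ?_
    intro z hz1 hz2
    obtain ⟨t, ht⟩ := e.surjective ⟨z, (h1 _ _ hz2).1⟩
    have h6 : i ≤ t := by
      rw [← e.le_iff_le, ht]
      exact hz1
    have h7 : t ≤ j := by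
      rw [← e.le_iff_le, ht]
      exact hz2
    rw [Fin.le_def] at h6 h7
    have h8 : z = (e t).1 := by rw [ht]
    rcases (by omega : t.1 = i.1 ∨ t.1 = j.1) with h9 | h9
    · left
      rw [h8, Fin.ext h9]
    · right
      rw [h8, Fin.ext h9]
  have h6 := hp _ _ hpath
  have h7 : {x | rQ J x x}.ncard = Fintype.card {x // rQ J x x} := by
    rw [← Nat.card_coe_set_eq, ← Nat.card_eq_fintype_card]
    rfl
  rw [h7]
  exact h6

/-- adding the field to all bags -/
theorem tree58 {M : Type} [Finite M] {J : Interp (Option S) (qAr ar) M} {K w : ℕ}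
    (h1 : ∀ x y, rQ J x y → rQ J x x ∧ rQ J y y) (hF : {x | rQ J x x}.ncard ≤ w)
    (h : TwLe (rI J) K) : TwLe J (K + w) := by
  classical
  obtain ⟨D⟩ := h
  obtain ⟨F, hFc⟩ : ∃ F : Finset M, (F : Set M) = {x | rQ J x x} :=
    ⟨(Set.toFinite {x | rQ J x x}).toFinset, by simp⟩
  have hFm : ∀ x, x ∈ F ↔ rQ J x x := by
    intro x
    rw [← Finset.mem_coe, hFc]
    rfl
  have hcard : F.card ≤ w := by
    rw [← Set.ncard_coe_finset, hFc]
    exact hF
  refine ⟨{ T := D.T, fin := D.fin, root := D.root, par := D.par, dep := D.dep,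
            dep_par := D.dep_par, bag := fun t => D.bag t ∪ F, card_bag := fun t => ?_,
            top := fun x => if x ∈ F then D.root else D.top x, mem_top := fun x => ?_,
            conn := fun x t hx ht => ?_, tup := ?_ }⟩
  · have h2 := Finset.card_union_le (D.bag t) F
    have h3 := D.card_bag t
    omega
  · by_cases hx : x ∈ F
    · exact Finset.mem_union_right _ hx
    · simp only [if_neg hx]
      exact Finset.mem_union_left _ (D.mem_top x)
  · by_cases hxF : x ∈ F
    · simp only [if_pos hxF] at ht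
      exact ⟨ht, Finset.mem_union_right _ hxF⟩
    · simp only [if_neg hxF] at ht
      have h2 := D.conn x t ((Finset.mem_union.1 hx).resolve_right hxF) ht
      exact ⟨h2.1, Finset.mem_union_left _ h2.2⟩
  · rintro (_ | s) v hv
    · refine ⟨D.root, fun i => Finset.mem_union_right _ ?_⟩
      change Fin 2 → M at v
      change Fin 2 at i
      have h2 : rQ J (v 0) (v 1) := by
        have e : v = ![v 0, v 1] := by
          funext i
          fin_cases i <;> rfl
        unfold rQ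
        rw [← e]
        exact hv
      obtain ⟨h3, h4⟩ := h1 _ _ h2
      rw [hFm]
      fin_cases i
      · exact h3
      · exact h4
    · obtain ⟨t, ht⟩ := D.tup s v hv
      exact ⟨t, fun i => Finset.mem_union_left _ (ht i)⟩

/-- the order of a path -/
def pQ58 {M : Type} {l : ℕ} (p : Fin l → M) (x y : M) : Prop :=
  ∃ i j : Fin l, i ≤ j ∧ x = p i ∧ y = p j

theorem pord_path58 {M : Type} {I : Interp S ar M} {l : ℕ} {p : Fin l → M}
    (hp : IsPath I p) : POrd (qI I (pQ58 p)) := by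
  obtain ⟨hinj, hadj⟩ := hp
  refine ⟨?_, ?_, ?_, ?_, ?_⟩
  · rintro x y ⟨i, j, hij, hx, hy⟩
    exact ⟨⟨i, i, le_refl _, hx, hx⟩, ⟨j, j, le_refl _, hy, hy⟩⟩
  · rintro x y ⟨i, j, hij, hx, hy⟩ ⟨i', j', hij', hy', hx'⟩
    have hx : x = p i := hx
    have hy : y = p j := hy
    have hy' : y = p i' := hy'
    have hx' : x = p j' := hx'
    have e1 : j = i' := hinj (hy.symm.trans hy')
    have e2 : i = j' := hinj (hx.symm.trans hx')
    subst e1 e2
    rw [hx, hy, le_antisymm hij hij']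
  · rintro x y z ⟨i, j, hij, hx, hy⟩ ⟨i', j', hij', hy', hz'⟩
    have hy : y = p j := hy
    have hy' : y = p i' := hy'
    have e1 : j = i' := hinj (hy.symm.trans hy')
    subst e1
    exact ⟨i, j', hij.trans hij', hx, hz'⟩
  · rintro x y ⟨i, _, _, hx, _⟩ ⟨j, _, _, hy, _⟩
    rcases le_total i j with h | h
    · exact Or.inl ⟨i, j, h, hx, hy⟩
    · exact Or.inr ⟨j, i, h, hy, hx⟩
  · rintro x y ⟨i, j, hij, hx, hy⟩ hne hz
    have hx : x = p i := hx
    have hy : y = p j := hy
    have hij2 : i ≠ j := by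
      rintro rfl
      exact hne (hx.trans hy.symm)
    have hlt : i < j := lt_of_le_of_ne hij hij2
    have hsucc : i.1 + 1 = j.1 := by
      by_contra hcon
      have h1 : i.1 + 1 < j.1 := by
        have : i.1 < j.1 := hlt
        omega
      have h2 := hz (p ⟨i.1 + 1, by omega⟩) ⟨i, ⟨i.1 + 1, by omega⟩, by
        rw [Fin.le_def]; simp, hx, rfl⟩ ⟨⟨i.1 + 1, by omega⟩, j, by
        rw [Fin.le_def]; exact h1.le, rfl, hy⟩
      rcases h2 with h2 | h2
      · rw [hx] at h2
        have h3 := congrArg Fin.val (hinj h2)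
        simp at h3
      · rw [hy] at h2
        have h3 := congrArg Fin.val (hinj h2)
        simp only at h3
        omega
    rw [hx, hy]
    exact hadj i j hsucc

/-- a long path is highly connected in the expansion -/
theorem linked58 {M : Type} [Finite M] {I : Interp S ar M} {l : ℕ} {p : Fin l → M}
    (hp : IsPath I p) {k : ℕ} (hk : 1 ≤ k) (hl : 5 * k ≤ l) :
    ∃ W : Set M, Linked (qI I (pQ58 p)) k W := by
  obtain ⟨hinj, -⟩ := hp
  have hinj' : Function.Injective (fun i : Fin (5 * k) => p (Fin.castLE hl i)) :=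
    hinj.comp (Fin.castLE_injective hl)
  obtain ⟨W, hW⟩ : ∃ W : Set M, W = Set.range (fun i : Fin (5 * k) => p (Fin.castLE hl i)) :=
    ⟨_, rfl⟩
  have hWc : W.ncard = 5 * k := by
    rw [hW, ← Set.image_univ, Set.ncard_image_of_injective _ hinj', Set.ncard_univ, Nat.card_fin]
  refine ⟨W, hWc, fun A B hAB _ => ?_⟩
  have hsub : W ⊆ A ∨ W ⊆ B := by
    by_contra hcon
    rw [not_or, Set.not_subset, Set.not_subset] at hcon
    obtain ⟨⟨x, hxW, hxA⟩, y, hyW, hyB⟩ := hcon
    rw [hW] at hxW hyW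
    obtain ⟨i, hi⟩ := hxW
    obtain ⟨j, hj⟩ := hyW
    have hi : x = p (Fin.castLE hl i) := hi.symm
    have hj : y = p (Fin.castLE hl j) := hj.symm
    rcases le_total (Fin.castLE hl i) (Fin.castLE hl j) with h | h
    · have h1 := hAB.2 none (show Fin 2 → M from ![x, y]) ⟨_, _, h, hi, hj⟩
      rcases h1 with h1 | h1
      · exact hxA (h1 (0 : Fin 2))
      · exact hyB (h1 (1 : Fin 2))
    · have h1 := hAB.2 none (show Fin 2 → M from ![y, x]) ⟨_, _, h, hj, hi⟩
      rcases h1 with h1 | h1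
      · exact hxA (h1 (1 : Fin 2))
      · exact hyB (h1 (0 : Fin 2))
  rcases hsub with h | h
  · left
    rw [Set.inter_eq_right.2 h, hWc]
    omega
  · right
    rw [Set.inter_eq_right.2 h, hWc]
    omega

theorem growth58 {w : ℕ → ℕ} (hw : ∀ d, ∀ᶠ n in atTop, E d (w n) ≤ n) (K d : ℕ) :
    ∀ᶠ n in atTop, E d (K + w n) ≤ n := by
  filter_upwards [hw (d + 1), eventually_ge_atTop (E d (2 * K))] with n h1 h2
  rcases le_or_gt (w n) K with h | h
  · exact (E_mono d (by omega : K + w n ≤ 2 * K)).trans h2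
  · have h3 : K + w n ≤ 2 ^ w n := by
      have h4 : 2 * w n ≤ 2 ^ w n := by
        obtain ⟨m, hm⟩ : ∃ m, w n = m + 1 := ⟨w n - 1, by omega⟩
        rw [hm, pow_succ, mul_comm]
        have : m < 2 ^ m := Nat.lt_two_pow_self
        exact Nat.mul_le_mul_right 2 this
      omega
    refine (E_mono d h3).trans ?_
    rw [E_two_pow]
    exact h1

/-- the theorem on the tree-width -/
def StmtTree : Prop := ∀ {S : Type} {ar : S → ℕ} [Finite S] (w : ℕ → ℕ)
    (_ : ∀ d, ∀ᶠ n in atTop, E d (w n) ≤ n) (φ : MFm S ar 0 0) (N1 : ℕ)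
    (_ : ∀ (n : ℕ) (I : Interp S ar (Fin n)), N1 ≤ n → MSat I φ → TwLe I (w n)),
    (∃ L, ∀ (n : ℕ) (I : Interp S ar (Fin n)), 1 ≤ n → MSat I φ → TwLe I L) ∧
      UltPeriodic {n : ℕ | 1 ≤ n ∧ ∃ I : Interp S ar (Fin n), MSat I φ}

theorem bounded_path_of_tree (hT : StmtTree) [Finite S] (w : ℕ → ℕ)
    (hw : ∀ d, ∀ᶠ n in atTop, E d (w n) ≤ n) (φ : MFm S ar 0 0) (N1 : ℕ)
    (h1 : ∀ (n : ℕ) (I : Interp S ar (Fin n)), N1 ≤ n → MSat I φ → PathLe I (w n)) :
    (∃ L, ∀ (n : ℕ) (I : Interp S ar (Fin n)), 1 ≤ n → MSat I φ → PathLe I L) ∧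
      UltPeriodic {n : ℕ | 1 ≤ n ∧ ∃ I : Interp S ar (Fin n), MSat I φ} := by
  classical
  obtain ⟨⟨K, hK⟩, hper⟩ := hT w hw φ N1 (fun n I hn hI => by
    obtain ⟨C, hC⟩ := dec_of_pathLe (h1 n I hn hI)
    exact TreeDec.mono (by omega) hC.treeDec)
  refine ⟨?_, hper⟩
  obtain ⟨φ', hφ'⟩ := plus58 φ
  obtain ⟨⟨L, hL⟩, -⟩ := hT (fun n => K + w n) (growth58 hw K) φ' (N1 + 1) (fun n J hn hJ => by
    obtain ⟨h2, h3⟩ := (hφ' (Fin n) J).1 hJ
    exact tree58 h3.1 (field58 h3 (h1 n (rI J) (by omega) h2)) (hK n (rI J) (by omega) h2))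
  refine ⟨5 * (L + 1), fun n I hn hI l p hp => ?_⟩
  by_contra hcon
  push Not at hcon
  obtain ⟨W, hW⟩ := linked58 hp (k := L + 1) (by omega) hcon.le
  obtain ⟨D⟩ := hL n (qI I (pQ58 p)) hn ((hφ' _ _).2 ⟨hI, pord_path58 hp⟩)
  exact low (by omega) D W hW

end Pool.Agent.Helper29.MW
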